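import Pool.Agent.H461R2.PD.Nth

/-!
# Consecutive primes in a residue class: two classes of shifts
-/

namespace Pool.Agent.H947R3.GM

open Finset Pool.Agent.H461R2.PD

/-- families of shifts which are admissible at the primes that do not divide `N` -/
def AdmN (N : ℕ) {T K : ℕ} (H : Fin T → Fin K → ℕ) : Prop :=
  Function.Injective (fun x : Fin T × Fin K => H x.1 x.2) ∧
  ∀ p : ℕ, p.Prime → ¬ p ∣ N → ∃ n : ℤ, ∀ g i, ¬ ((p : ℤ) ∣ n + H g i)

/-- the `k` such that `N * k` is infinitely often the gap after a prime that is `a` modulo `N` -/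
def GapA (N a : ℕ) : Set ℕ := {k | {n : ℕ | n.Prime ∧ n ≡ a [MOD N] ∧ (n + N * k).Prime ∧
  0 < N * k ∧ ∀ m, n < m → m < n + N * k → ¬ m.Prime}.Infinite}

/-- the general form: the shifts which are not used are blocked by divisors of `Q` -/
theorem consec_core {K : ℕ} (H : Fin 5 → Fin K → ℕ)
    (hHinj : Function.Injective (fun x : Fin 5 × Fin K => H x.1 x.2))
    {M : ℕ} (hM : ∀ g i, H g i ≤ M) {Q r : ℕ} (hQ0 : 0 < Q)
    (hblock : ∀ t ≤ M, (∀ g i, H g i ≠ t) → ∃ q, q.Prime ∧ q ∣ Q ∧ q ∣ r + t)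
    {S : Finset (Fin 5)} {c : Fin 5 → Fin K} (hS : 5 ≤ 4 * S.card)
    (hinf : {n : ℕ | ∀ g ∈ S, 0 < (Q : ℤ) * (n : ℤ) + ((r + H g (c g) : ℕ) : ℤ) ∧
        Prime ((Q : ℤ) * (n : ℤ) + ((r + H g (c g) : ℕ) : ℤ))}.Infinite) :
    ∃ g g' i i', g ≠ g' ∧ H g i < H g' i' ∧
      {n : ℕ | (Q * n + r + H g i).Prime ∧ (Q * n + r + H g' i').Prime ∧
        ∀ m, Q * n + r + H g i < m → m < Q * n + r + H g' i' → ¬ m.Prime}.Infinite := by
  classical
  have hS2 : 1 < S.card := by omega
  obtain ⟨g₁, hg₁, g₂, hg₂, hg12⟩ := one_lt_card.1 hS2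
  set X : Set ℕ := {n : ℕ | 2 ≤ n ∧ ∀ g ∈ S, (Q * n + r + H g (c g)).Prime} with hX
  have hXinf : X.Infinite := by
    have h1 : {n : ℕ | ∀ g ∈ S, 0 < (Q : ℤ) * (n : ℤ) + ((r + H g (c g) : ℕ) : ℤ) ∧
        Prime ((Q : ℤ) * (n : ℤ) + ((r + H g (c g) : ℕ) : ℤ))} \ {n | n < 2} ⊆ X := by
      rintro n ⟨hn, hn2⟩
      refine ⟨by have h2 : ¬ n < 2 := hn2; omega, fun g hg => ?_⟩
      have := (hn g hg).2
      rw [Nat.prime_iff_prime_int]
      push_cast at this ⊢
      rwa [add_assoc]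
    exact (hinf.sdiff (Set.finite_lt_nat 2)).mono h1
  -- the sets of `n` for a given pair of shifts
  set Y : (Fin 5 × Fin K) × (Fin 5 × Fin K) → Set ℕ := fun x =>
    {n | x.1.1 ≠ x.2.1 ∧ H x.1.1 x.1.2 < H x.2.1 x.2.2 ∧ (Q * n + r + H x.1.1 x.1.2).Prime ∧
      (Q * n + r + H x.2.1 x.2.2).Prime ∧
      ∀ m, Q * n + r + H x.1.1 x.1.2 < m → m < Q * n + r + H x.2.1 x.2.2 → ¬ m.Prime} with hY
  have hcover : X ⊆ ⋃ x, Y x := by
    rintro n ⟨hn2, hn⟩
    -- non-shifts give composite numbers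
    have hcomp : ∀ t ≤ M, (∀ g i, H g i ≠ t) → ¬ (Q * n + r + t).Prime := by
      intro t ht hne hpr
      obtain ⟨q, hqp, hqQ, hqr⟩ := hblock t ht hne
      have h1 : q ∣ Q * n + r + t := by
        rw [add_assoc]
        exact dvd_add (hqQ.mul_right n) hqr
      have h2 : q = Q * n + r + t := (Nat.prime_dvd_prime_iff_eq hqp hpr).1 h1
      have h3 : q ≤ Q := Nat.le_of_dvd hQ0 hqQ
      have h4 := hqp.pos
      nlinarith
    -- order the two classes
    obtain ⟨g, hg, g', hg', hne, hlt⟩ : ∃ g ∈ S, ∃ g' ∈ S, g ≠ g' ∧ H g (c g) < H g' (c g') := by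
      rcases lt_trichotomy (H g₁ (c g₁)) (H g₂ (c g₂)) with hl | he | hl
      · exact ⟨g₁, hg₁, g₂, hg₂, hg12, hl⟩
      · exfalso
        have := hHinj (a₁ := (g₁, c g₁)) (a₂ := (g₂, c g₂)) he
        exact hg12 (Prod.mk.inj this).1
      · exact ⟨g₂, hg₂, g₁, hg₁, hg12.symm, hl⟩
    -- the largest prime of class `g`
    set A : Finset (Fin K) := univ.filter fun i => (Q * n + r + H g i).Prime ∧ H g i < H g' (c g')
      with hA
    have hAne : A.Nonempty := ⟨c g, by simp [hA, hn g hg, hlt]⟩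
    obtain ⟨i, hiA, hi⟩ := exists_max_image A (fun i => H g i) hAne
    simp only [hA, mem_filter, mem_univ, true_and] at hiA
    -- the next prime
    set C : Finset (Fin 5 × Fin K) := univ.filter fun x =>
      (Q * n + r + H x.1 x.2).Prime ∧ H g i < H x.1 x.2 ∧ H x.1 x.2 ≤ H g' (c g') with hC
    have hCne : C.Nonempty := ⟨(g', c g'), by simp [hC, hn g' hg', hiA.2]⟩
    obtain ⟨⟨g'', i''⟩, hxC, hx⟩ := exists_min_image C (fun x => H x.1 x.2) hCne
    simp only [hC, mem_filter, mem_univ, true_and] at hxC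
    simp only [Set.mem_iUnion]
    refine ⟨((g, i), (g'', i'')), ?_, hxC.2.1, hiA.1, hxC.1, ?_⟩
    · rintro heq
      simp only at heq
      subst heq
      rcases hxC.2.2.lt_or_eq with h1 | h1
      · have := hi i'' (by simp only [hA, mem_filter, mem_univ, true_and]; exact ⟨hxC.1, h1⟩)
        have := hxC.2.1
        omega
      · have := hHinj (a₁ := (g, i'')) (a₂ := (g', c g')) h1
        exact hne (Prod.mk.inj this).1
    · intro m hm1 hm2 hmp
      simp only at hm1 hm2
      obtain ⟨t, rfl⟩ : ∃ t, m = Q * n + r + t := ⟨m - (Q * n + r), by omega⟩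
      have htM : t ≤ M := by have := hM g'' i''; omega
      by_cases hex : ∃ g₀ i₀, H g₀ i₀ = t
      · obtain ⟨g₀, i₀, rfl⟩ := hex
        have := hx (g₀, i₀) (by
          simp only [hC, mem_filter, mem_univ, true_and]
          refine ⟨hmp, by omega, ?_⟩
          have := hxC.2.2
          omega)
        simp only at this
        omega
      · push Not at hex
        exact hcomp t htM hex hmp
  obtain ⟨x, hx⟩ : ∃ x, (Y x).Infinite := by
    by_contra hcon
    push Not at hcon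
    have : (⋃ x, Y x).Finite := Set.finite_iUnion fun x => by simpa using hcon x
    exact hXinf (this.subset hcover)
  obtain ⟨n₀, hn₀⟩ := hx.nonempty
  exact ⟨x.1.1, x.2.1, x.1.2, x.2.2, hn₀.1, hn₀.2.1, hx.mono fun n hn => hn.2.2⟩

open Classical in
/-- two classes contain the end points of gaps between consecutive primes which are `a` mod `N` -/
theorem consecA (hQ : Quarter) {N a : ℕ} (hN : 0 < N) (ha : a.Coprime N) :
    ∃ K : ℕ, 1 ≤ K ∧ ∀ H : Fin 5 → Fin K → ℕ, AdmN N H →
    ∃ g g' i i', g ≠ g' ∧ H g i < H g' i' ∧ H g' i' - H g i ∈ GapA N a := by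
  obtain ⟨K, hK, h⟩ := hQ 5
  refine ⟨K, hK, fun H hH => ?_⟩
  set H' : Fin 5 → Fin K → ℕ := fun g i => N * H g i with hH'
  have hinjH' : Function.Injective (fun x : Fin 5 × Fin K => H' x.1 x.2) := by
    intro x y hxy
    exact hH.1 (Nat.eq_of_mul_eq_mul_left hN hxy)
  -- a bound for the shifts
  obtain ⟨M, hM⟩ : ∃ M, ∀ g i, H' g i ≤ M :=
    ⟨univ.sup fun x : Fin 5 × Fin K => H' x.1 x.2, fun g i =>
      le_sup (f := fun x : Fin 5 × Fin K => H' x.1 x.2) (mem_univ (g, i))⟩
  set q : ℕ → ℕ := fun t => Nat.nth Nat.Prime (M + N + t) with hq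
  have hqp : ∀ t, (q t).Prime := fun t => Nat.prime_nth_prime _
  have hqM : ∀ t, M + N + t < q t := fun t => by
    have := Nat.add_two_le_nth_prime (M + N + t)
    simp only [hq]; omega
  have hqinj : Function.Injective q := by
    intro s t hst
    have := Nat.nth_injective Nat.infinite_setOfPred_prime hst
    omega
  set U : Finset ℕ := (range (M + 1)).filter fun t => ∀ g i, H' g i ≠ t with hU
  have hpair : Set.Pairwise (U : Set ℕ) (Function.onFun Nat.Coprime q) := by
    intro s _ t _ hst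
    exact (Nat.coprime_primes (hqp s) (hqp t)).2 fun h => hst (hqinj h)
  obtain ⟨r₀, hr₀⟩ := Nat.chineseRemainderOfFinset (fun t => q t - t) q U
    (fun t _ => (hqp t).ne_zero) hpair
  set Q₀ : ℕ := ∏ t ∈ U, q t with hQ₀def
  have hQ₀ : 0 < Q₀ := prod_pos fun t _ => (hqp t).pos
  have hcopN : Nat.Coprime Q₀ N := by
    refine Nat.Coprime.prod_left fun t _ => ?_
    rw [Nat.Prime.coprime_iff_not_dvd (hqp t)]
    intro hd
    have h1 := Nat.le_of_dvd hN hd
    have h2 := hqM t
    omega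
  obtain ⟨r, hrQ, hrN⟩ := Nat.chineseRemainder hcopN r₀ a
  have hr' : ∀ t ∈ U, q t ∣ r + t := by
    intro t ht
    have h0 : r ≡ r₀ [MOD q t] := hrQ.of_dvd (dvd_prod_of_mem q ht)
    have h1 := (h0.trans (hr₀ t ht)).add_right t
    have h2 : q t - t + t = q t := by have := hqM t; omega
    rw [h2] at h1
    exact (Nat.modEq_zero_iff_dvd.1 (h1.trans (by simp [Nat.ModEq])))
  set Q : ℕ := Q₀ * N with hQdef
  have hQ0 : 0 < Q := Nat.mul_pos hQ₀ hN
  obtain ⟨S, c, hS, hinf⟩ := h (fun _ _ => (Q : ℤ)) (fun g i => ((r + H' g i : ℕ) : ℤ))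
    (fun _ _ => by exact_mod_cast hQ0)
    (by
      intro x y hxy
      apply hinjH'
      simp only [Prod.mk.injEq, Nat.cast_inj, true_and] at hxy
      exact Nat.add_left_cancel hxy)
    (by
      intro p hp
      by_cases hpN : p ∣ N
      · refine ⟨0, fun g i hd => ?_⟩
        rw [mul_zero, zero_add] at hd
        have hd' : p ∣ r + N * H g i := by exact_mod_cast hd
        have h1 : p ∣ r := (Nat.dvd_add_left (hpN.mul_right _)).1 hd'
        have h2 : p ∣ a := by
          have h3 : r ≡ a [MOD p] := hrN.of_dvd hpN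
          exact (h3.dvd_iff dvd_rfl).1 h1
        have h4 : p ∣ Nat.gcd a N := Nat.dvd_gcd h2 hpN
        rw [ha] at h4
        exact hp.one_lt.ne' (Nat.dvd_one.1 h4)
      by_cases hpQ : p ∣ Q₀
      · refine ⟨0, fun g i hd => ?_⟩
        obtain ⟨t, htU, hpt⟩ := (hp.prime.dvd_finsetProd_iff _).1 hpQ
        have hpq : p = q t := (Nat.prime_dvd_prime_iff_eq hp (hqp t)).1 hpt
        rw [mul_zero, zero_add] at hd
        have hd' : q t ∣ r + H' g i := by rw [← hpq]; exact_mod_cast hd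
        have h1 := hr' t htU
        have hne : H' g i ≠ t := (mem_filter.1 htU).2 g i
        have htM : t ≤ M := by
          have := (mem_filter.1 htU).1
          rw [mem_range] at this; omega
        have h2 : (q t : ℤ) ∣ (H' g i : ℤ) - t := by
          have h3 : (q t : ℤ) ∣ ((r + H' g i : ℕ) : ℤ) - ((r + t : ℕ) : ℤ) :=
            dvd_sub (by exact_mod_cast hd') (by exact_mod_cast h1)
          push_cast at h3
          have e : (r : ℤ) + H' g i - (r + t) = H' g i - t := by ring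
          rwa [e] at h3
        have h4 : |(H' g i : ℤ) - t| < q t := by
          have := hqM t
          have h5 := hM g i
          rw [abs_lt]
          constructor <;> omega
        have h6 := Int.eq_zero_of_abs_lt_dvd h2 h4
        omega
      · obtain ⟨n₀, hn₀⟩ := hH.2 p hp hpN
        have hpQ' : ¬ p ∣ Q := fun h => (hp.dvd_mul.1 h).elim hpQ hpN
        have hcop : IsCoprime (Q : ℤ) (p : ℤ) := by
          rw [Nat.isCoprime_iff_coprime]
          exact ((Nat.Prime.coprime_iff_not_dvd hp).2 hpQ').symm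
        obtain ⟨u, v, huv⟩ := hcop
        refine ⟨u * (N * n₀ - r), fun g i hd => ?_⟩
        have hd2 : (p : ℤ) ∣ N * (n₀ + H g i) := by
          have e : (N : ℤ) * (n₀ + H g i) = ((Q : ℤ) * (u * (N * n₀ - r)) + ((r + H' g i : ℕ) : ℤ)) +
              p * (v * (N * n₀ - r)) := by
            simp only [hH']
            push_cast
            linear_combination (-(N * n₀ - (r : ℤ))) * huv
          rw [e]
          exact dvd_add hd (dvd_mul_right _ _)
        rcases (Nat.prime_iff_prime_int.1 hp).dvd_or_dvd hd2 with h1 | h1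
        · exact hpN (by exact_mod_cast h1)
        · exact hn₀ g i h1)
  obtain ⟨g, g', i, i', hg, hlt, hx⟩ := consec_core H' hinjH' hM hQ0 (r := r) (by
    intro t ht hne
    have htU : t ∈ U := by
      rw [hU, mem_filter, mem_range]; exact ⟨by omega, hne⟩
    exact ⟨q t, hqp t, (dvd_prod_of_mem q htU).mul_right N, hr' t htU⟩) hS hinf
  have hlt' : H g i < H g' i' := Nat.lt_of_mul_lt_mul_left hlt
  refine ⟨g, g', i, i', hg, hlt', ?_⟩
  have hinj : Function.Injective fun n : ℕ => Q * n + r + H' g i := by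
    intro a b hab
    simp only at hab
    exact Nat.eq_of_mul_eq_mul_left hQ0 (by omega)
  refine (hx.image hinj.injOn).mono ?_
  rintro _ ⟨n, ⟨hp1, hp2, hno⟩, rfl⟩
  have e : Q * n + r + H' g i + N * (H g' i' - H g i) = Q * n + r + H' g' i' := by
    rw [Nat.mul_sub]
    simp only [hH'] at hlt ⊢
    omega
  refine ⟨hp1, ?_, ?_, ?_, ?_⟩
  · show Q * n + r + H' g i ≡ a [MOD N]
    have h1 : Q * n ≡ 0 [MOD N] := by
      rw [Nat.modEq_zero_iff_dvd, hQdef]
      exact (dvd_mul_left N Q₀).mul_right n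
    have h2 : H' g i ≡ 0 [MOD N] := by
      rw [Nat.modEq_zero_iff_dvd]
      exact dvd_mul_right N _
    simpa using (h1.add hrN).add h2
  · simp only; rw [e]; exact hp2
  · exact Nat.mul_pos hN (by omega)
  · simp only; rw [e]; exact hno

theorem nth_sub {N a k : ℕ} (hk : k ∈ GapA N a) :
    {n : ℕ | Nat.nth Nat.Prime n ≡ a [MOD N] ∧
      Nat.nth Nat.Prime (n + 1) = Nat.nth Nat.Prime n + N * k}.Infinite := by
  have h : {n : ℕ | n.Prime ∧ n ≡ a [MOD N] ∧ (n + N * k).Prime ∧ 0 < N * k ∧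
    ∀ m, n < m → m < n + N * k → ¬ m.Prime}.Infinite := hk
  refine Set.infinite_of_injOn_mapsTo (f := fun p => Nat.count Nat.Prime p) ?_ ?_ h
  · intro p hp q hq hpq
    have h1 := Nat.nth_count (p := Nat.Prime) hp.1
    have h2 := Nat.nth_count (p := Nat.Prime) hq.1
    simp only at hpq
    rw [← h1, ← h2, hpq]
  · intro p hp
    refine ⟨?_, nth_gap hp.1 hp.2.2.1 hp.2.2.2.1 hp.2.2.2.2⟩
    rw [Nat.nth_count hp.1]
    exact hp.2.1

end Pool.Agent.H947R3.GM
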