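import Pool.Agent.H362R2.CM.Final
import Pool.Agent.H947R3.GM.Cls
import Pool.Agent.H672R3.SimGaps

/-!
# All residue classes and dilations simultaneously
-/

namespace Pool.Agent.H947R3.GM

open Finset Pool.Agent.H461R2.PD Pool.Agent.H672R3.Sim

/-- two properties -/
theorem delta_inter {D E : ℕ → Prop} {C₀ C : ℕ} (hD : DeltaStar D C₀) (hE : DeltaStar E C) :
    DeltaStar (fun k => D k ∧ E k) (2 ^ (C + C₀)) := by
  classical
  intro S hS
  let G : SimpleGraph ℤ :=
    { Adj := fun x y => x ≠ y ∧ D (x - y).natAbs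
      symm := ⟨fun x y hxy => ⟨hxy.1.symm, by rw [natAbs_swap]; exact hxy.2⟩⟩
      loopless := ⟨fun x hx => hx.1 rfl⟩ }
  rcases Pool.Agent.H265R2.CritP4.ramsey G (C + C₀) C C₀ le_rfl S hS with
    ⟨T, hTS, hT, hadj⟩ | ⟨T, hTS, hT, hadj⟩
  · obtain ⟨x, hx, y, hy, hxy, hD⟩ := hE T hT.ge
    exact ⟨x, hTS hx, y, hTS hy, hxy, (hadj x hx y hy hxy).2, hD⟩
  · exfalso
    obtain ⟨a, ha, b, hb, hab, h⟩ := hD T hT.ge
    exact hadj a ha b hb ⟨hab, h⟩

/-- finitely many properties -/
theorem delta_inter_finset {ι : Type} (s : Finset ι) {D : ι → ℕ → Prop}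
    (h : ∀ i ∈ s, ∃ C, DeltaStar (D i) C) :
    ∃ C, DeltaStar (fun k => ∀ i ∈ s, D i k) C := by
  classical
  induction s using Finset.induction_on with
  | empty =>
    refine ⟨2, fun S hS => ?_⟩
    obtain ⟨x, hx, y, hy, hxy⟩ := Finset.one_lt_card.1 (show 1 < S.card by omega)
    exact ⟨x, hx, y, hy, hxy, by simp⟩
  | insert i s _ ih =>
    obtain ⟨C, hC⟩ := ih fun j hj => h j (mem_insert_of_mem hj)
    obtain ⟨C₀, hC₀⟩ := h i (mem_insert_self _ _)
    refine ⟨2 ^ (C + C₀), fun S hS => ?_⟩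
    obtain ⟨a, ha, b, hb, hab, h1, h2⟩ := delta_inter hC₀ hC S hS
    refine ⟨a, ha, b, hb, hab, fun j hj => ?_⟩
    rcases mem_insert.1 hj with rfl | hj
    · exact h1
    · exact h2 j hj

/-- every large set of integers contains two whose distance is in `GapA N a` -/
theorem delta_gap {N a : ℕ} (hN : 0 < N) (ha : a.Coprime N) :
    ∃ C, DeltaStar (fun k => k ∈ GapA N a) C := by
  classical
  obtain ⟨K, hK, hD⟩ := consecA Pool.Agent.H362R2.CM.quarter hN ha
  set P : ℕ := (5 * K).factorial with hP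
  have hP0 : 0 < P := Nat.factorial_pos _
  refine ⟨P * (5 * K) + 1, fun S hS => ?_⟩
  -- many elements in one residue class
  obtain ⟨r, -, hr⟩ := exists_lt_card_fiber_of_mul_lt_card_of_maps_to (s := S)
    (t := (range P).image (fun j : ℕ => (j : ℤ))) (f := fun x => x % (P : ℤ)) (n := 5 * K)
    (by
      intro x _
      rw [mem_image]
      have hP' : (0 : ℤ) < P := by exact_mod_cast hP0
      have h1 := Int.emod_nonneg x hP'.ne'
      have h2 := Int.emod_lt_of_pos x hP'
      exact ⟨(x % (P : ℤ)).toNat, mem_range.2 (by omega), by omega⟩)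
    (by
      rw [card_image_of_injective _ Nat.cast_injective, card_range]
      omega)
  obtain ⟨T, hT, hTc⟩ := exists_subset_card_eq hr.le
  have hTm : ∀ x ∈ T, x ∈ S ∧ x % (P : ℤ) = r := fun x hx => by simpa using hT hx
  -- shift to the natural numbers
  obtain ⟨B, hB⟩ : ∃ B : ℕ, ∀ x ∈ T, 0 ≤ x + B :=
    ⟨T.sup fun x => x.natAbs, fun x hx => by
      have := le_sup (f := fun x : ℤ => x.natAbs) hx
      omega⟩
  set e : Fin 5 × Fin K ≃ T := finProdFinEquiv.trans (T.equivFinOfCardEq hTc).symm with he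
  set H : Fin 5 → Fin K → ℕ := fun g i => ((e (g, i) : ℤ) + B).toNat with hH
  have hHz : ∀ g i, (H g i : ℤ) = (e (g, i) : ℤ) + B := fun g i =>
    Int.toNat_of_nonneg (hB _ (e (g, i)).2)
  obtain ⟨g, g', i, i', hg, hlt, hmem⟩ := hD H (by
    refine ⟨?_, ?_⟩
    · rintro ⟨g, i⟩ ⟨g', i'⟩ hx
      simp only at hx
      have h1 : (H g i : ℤ) = H g' i' := by exact_mod_cast hx
      rw [hHz, hHz] at h1
      apply e.injective
      apply Subtype.ext
      linarith
    · intro p hp _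
      rcases le_or_gt p (5 * K) with hpK | hpK
      · refine ⟨1 - r - B, fun g i hd => ?_⟩
        rw [hHz] at hd
        have h1 : (p : ℤ) ∣ P := by exact_mod_cast Nat.dvd_factorial hp.pos hpK
        have h2 := (hTm _ (e (g, i)).2).2
        have h3 : (P : ℤ) ∣ (e (g, i) : ℤ) - r := by
          rw [← h2]
          exact Int.dvd_self_sub_emod
        have h4 : (p : ℤ) ∣ 1 := by
          have h5 : (1 : ℤ) = (1 - r - B + ((e (g, i) : ℤ) + B)) - ((e (g, i) : ℤ) - r) := by ring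
          rw [h5]
          exact dvd_sub hd (h1.trans h3)
        have h5 : p ∣ 1 := by exact_mod_cast h4
        exact hp.one_lt.ne' (Nat.dvd_one.1 h5)
      · exact exists_shift hp hpK _)
  refine ⟨e (g', i'), (hTm _ (e (g', i')).2).1, e (g, i), (hTm _ (e (g, i)).2).1, ?_, ?_⟩
  · intro h
    have h1 := hHz g i
    have h2 := hHz g' i'
    have h3 : (H g i : ℤ) < H g' i' := by exact_mod_cast hlt
    omega
  · have h1 := hHz g i
    have h2 := hHz g' i'
    have h3 : (((e (g', i') : ℤ) - (e (g, i) : ℤ)).natAbs) = H g' i' - H g i := by omega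
    rw [h3]
    exact hmem

/-- all residue classes modulo `N` and all dilations by elements of `F` -/
theorem delta_all {N : ℕ} (hN : 0 < N) (F : Finset ℕ) (hF : 0 ∉ F) :
    ∃ C, DeltaStar (fun k => ∀ r ∈ F, ∀ a, Nat.Coprime a N → k * r ∈ GapA N a) C := by
  classical
  obtain ⟨C, hC⟩ := delta_inter_finset ((range N).filter fun a => Nat.Coprime a N)
    (D := fun a k => k ∈ GapA N a) (fun a ha => delta_gap hN (mem_filter.1 ha).2)
  obtain ⟨C', hC'⟩ := dil hC F hF
  refine ⟨C', fun S hS => ?_⟩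
  obtain ⟨x, hx, y, hy, hxy, h⟩ := hC' S hS
  refine ⟨x, hx, y, hy, hxy, fun r hr a ha => ?_⟩
  have h1 := h r hr (a % N) (mem_filter.2 ⟨mem_range.2 (Nat.mod_lt _ hN), by
    rw [Nat.coprime_iff_gcd_eq_one] at ha ⊢
    rw [Nat.gcd_comm] at ha
    rw [← Nat.gcd_rec]
    exact ha⟩)
  have h2 : GapA N (a % N) = GapA N a := by
    unfold GapA
    have : ∀ n : ℕ, n ≡ a % N [MOD N] ↔ n ≡ a [MOD N] := fun n => by
      simp [Nat.ModEq]
    simp only [this]
  rw [h2] at h1
  exact h1

end Pool.Agent.H947R3.GM
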