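import Pool.Agent.H362R2.CM.Final
import Pool.Agent.H947R3.GM.Sim

/-!
# Prime gaps at indices in a residue class
-/

namespace Pool.Agent.H947R3.GM

open Finset Pool.Agent.H461R2.PD Pool.Agent.H672R3.Sim

/-- the `k` such that `N * k` is the gap after the prime with index `m` for infinitely many
`m ≡ b (mod n)` such that this prime is `a` modulo `N` -/
def GapI (N a n b : ℕ) : Set ℕ := {k | {m : ℕ | m ≡ b [MOD n] ∧ Nat.nth Nat.Prime m ≡ a [MOD N] ∧
  Nat.nth Nat.Prime (m + 1) = Nat.nth Nat.Prime m + N * k}.Infinite}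

open Classical in
/-- many classes are hit by primes and all other positions are blocked -/
theorem setup (hQ : Quarter) (T : ℕ) {N a : ℕ} (hN : 0 < N) (ha : a.Coprime N) :
    ∃ K : ℕ, 1 ≤ K ∧ ∀ H : Fin T → Fin K → ℕ, AdmN N H →
    ∃ M Q r : ℕ, 0 < Q ∧ N ∣ Q ∧ r ≡ a [MOD N] ∧ (∀ g i, N * H g i ≤ M) ∧
      (∀ t ≤ M, (∀ g i, N * H g i ≠ t) → ∃ q, q.Prime ∧ q ∣ Q ∧ q ∣ r + t) ∧
      ∃ (S : Finset (Fin T)) (c : Fin T → Fin K), T ≤ 4 * S.card ∧
        {n : ℕ | ∀ g ∈ S, 0 < (Q : ℤ) * (n : ℤ) + ((r + N * H g (c g) : ℕ) : ℤ) ∧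
          Prime ((Q : ℤ) * (n : ℤ) + ((r + N * H g (c g) : ℕ) : ℤ))}.Infinite := by
  obtain ⟨K, hK, h⟩ := hQ T
  refine ⟨K, hK, fun H hH => ?_⟩
  set H' : Fin T → Fin K → ℕ := fun g i => N * H g i with hH'
  have hinjH' : Function.Injective (fun x : Fin T × Fin K => H' x.1 x.2) := by
    intro x y hxy
    exact hH.1 (Nat.eq_of_mul_eq_mul_left hN hxy)
  -- a bound for the shifts
  obtain ⟨M, hM⟩ : ∃ M, ∀ g i, H' g i ≤ M :=
    ⟨univ.sup fun x : Fin T × Fin K => H' x.1 x.2, fun g i =>
      le_sup (f := fun x : Fin T × Fin K => H' x.1 x.2) (mem_univ (g, i))⟩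
  set q : ℕ → ℕ := fun t => Nat.nth Nat.Prime (M + N + t) with hq
  have hqp : ∀ t, (q t).Prime := fun t => Nat.prime_nth_prime _
  have hqM : ∀ t, M + N + t < q t := fun t => by
    have := Nat.add_two_le_nth_prime (M + N + t)
    simp only [hq]; omega
  have hqinj : Function.Injective q := by
    intro s t hst
    have := Nat.nth_injective Nat.infinite_setOfPred_prime hst
    omega
  set U : Finset ℕ := (range (M + 1)).filter fun t => ∀ g i, H' g i ≠ t with hU
  have hpair : Set.Pairwise (U : Set ℕ) (Function.onFun Nat.Coprime q) := by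
    intro s _ t _ hst
    exact (Nat.coprime_primes (hqp s) (hqp t)).2 fun h => hst (hqinj h)
  obtain ⟨r₀, hr₀⟩ := Nat.chineseRemainderOfFinset (fun t => q t - t) q U
    (fun t _ => (hqp t).ne_zero) hpair
  set Q₀ : ℕ := ∏ t ∈ U, q t with hQ₀def
  have hQ₀ : 0 < Q₀ := prod_pos fun t _ => (hqp t).pos
  have hcopN : Nat.Coprime Q₀ N := by
    refine Nat.Coprime.prod_left fun t _ => ?_
    rw [Nat.Prime.coprime_iff_not_dvd (hqp t)]
    intro hd
    have h1 := Nat.le_of_dvd hN hd
    have h2 := hqM t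
    omega
  obtain ⟨r, hrQ, hrN⟩ := Nat.chineseRemainder hcopN r₀ a
  have hr' : ∀ t ∈ U, q t ∣ r + t := by
    intro t ht
    have h0 : r ≡ r₀ [MOD q t] := hrQ.of_dvd (dvd_prod_of_mem q ht)
    have h1 := (h0.trans (hr₀ t ht)).add_right t
    have h2 : q t - t + t = q t := by have := hqM t; omega
    rw [h2] at h1
    exact (Nat.modEq_zero_iff_dvd.1 (h1.trans (by simp [Nat.ModEq])))
  set Q : ℕ := Q₀ * N with hQdef
  have hQ0 : 0 < Q := Nat.mul_pos hQ₀ hN
  obtain ⟨S, c, hS, hinf⟩ := h (fun _ _ => (Q : ℤ)) (fun g i => ((r + H' g i : ℕ) : ℤ))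
    (fun _ _ => by exact_mod_cast hQ0)
    (by
      intro x y hxy
      apply hinjH'
      simp only [Prod.mk.injEq, Nat.cast_inj, true_and] at hxy
      exact Nat.add_left_cancel hxy)
    (by
      intro p hp
      by_cases hpN : p ∣ N
      · refine ⟨0, fun g i hd => ?_⟩
        rw [mul_zero, zero_add] at hd
        have hd' : p ∣ r + N * H g i := by exact_mod_cast hd
        have h1 : p ∣ r := (Nat.dvd_add_left (hpN.mul_right _)).1 hd'
        have h2 : p ∣ a := by
          have h3 : r ≡ a [MOD p] := hrN.of_dvd hpN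
          exact (h3.dvd_iff dvd_rfl).1 h1
        have h4 : p ∣ Nat.gcd a N := Nat.dvd_gcd h2 hpN
        rw [ha] at h4
        exact hp.one_lt.ne' (Nat.dvd_one.1 h4)
      by_cases hpQ : p ∣ Q₀
      · refine ⟨0, fun g i hd => ?_⟩
        obtain ⟨t, htU, hpt⟩ := (hp.prime.dvd_finsetProd_iff _).1 hpQ
        have hpq : p = q t := (Nat.prime_dvd_prime_iff_eq hp (hqp t)).1 hpt
        rw [mul_zero, zero_add] at hd
        have hd' : q t ∣ r + H' g i := by rw [← hpq]; exact_mod_cast hd
        have h1 := hr' t htU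
        have hne : H' g i ≠ t := (mem_filter.1 htU).2 g i
        have htM : t ≤ M := by
          have := (mem_filter.1 htU).1
          rw [mem_range] at this; omega
        have h2 : (q t : ℤ) ∣ (H' g i : ℤ) - t := by
          have h3 : (q t : ℤ) ∣ ((r + H' g i : ℕ) : ℤ) - ((r + t : ℕ) : ℤ) :=
            dvd_sub (by exact_mod_cast hd') (by exact_mod_cast h1)
          push_cast at h3
          have e : (r : ℤ) + H' g i - (r + t) = H' g i - t := by ring
          rwa [e] at h3
        have h4 : |(H' g i : ℤ) - t| < q t := by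
          have := hqM t
          have h5 := hM g i
          rw [abs_lt]
          constructor <;> omega
        have h6 := Int.eq_zero_of_abs_lt_dvd h2 h4
        omega
      · obtain ⟨n₀, hn₀⟩ := hH.2 p hp hpN
        have hpQ' : ¬ p ∣ Q := fun h => (hp.dvd_mul.1 h).elim hpQ hpN
        have hcop : IsCoprime (Q : ℤ) (p : ℤ) := by
          rw [Nat.isCoprime_iff_coprime]
          exact ((Nat.Prime.coprime_iff_not_dvd hp).2 hpQ').symm
        obtain ⟨u, v, huv⟩ := hcop
        refine ⟨u * (N * n₀ - r), fun g i hd => ?_⟩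
        have hd2 : (p : ℤ) ∣ N * (n₀ + H g i) := by
          have e : (N : ℤ) * (n₀ + H g i) = ((Q : ℤ) * (u * (N * n₀ - r)) + ((r + H' g i : ℕ) : ℤ)) +
              p * (v * (N * n₀ - r)) := by
            simp only [hH']
            push_cast
            linear_combination (-(N * n₀ - (r : ℤ))) * huv
          rw [e]
          exact dvd_add hd (dvd_mul_right _ _)
        rcases (Nat.prime_iff_prime_int.1 hp).dvd_or_dvd hd2 with h1 | h1
        · exact hpN (by exact_mod_cast h1)
        · exact hn₀ g i h1)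
  refine ⟨M, Q, r, hQ0, dvd_mul_left N Q₀, hrN, hM, ?_, S, c, hS, hinf⟩
  intro t ht hne
  have htU : t ∈ U := by
    rw [hU, mem_filter, mem_range]; exact ⟨by omega, hne⟩
  exact ⟨q t, hqp t, (dvd_prod_of_mem q htU).mul_right N, hr' t htU⟩

theorem consecI (hQ : Quarter) {N a n b : ℕ} (hN : 0 < N) (ha : a.Coprime N) (hn : 0 < n) :
    ∃ K : ℕ, 1 ≤ K ∧ ∀ H : Fin (4 * n + 1) → Fin K → ℕ, AdmN N H →
    ∃ g g' i i', H g i < H g' i' ∧ H g' i' - H g i ∈ GapI N a n b := by
  classical
  obtain ⟨K, hK, hset⟩ := setup hQ (4 * n + 1) hN ha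
  refine ⟨K, hK, fun H hH => ?_⟩
  obtain ⟨M, Q, r, hQ0, hNQ, hrN, hM, hblock, S, c, hS, hinf⟩ := hset H hH
  have hinjH : Function.Injective (fun x : Fin (4 * n + 1) × Fin K => N * H x.1 x.2) := by
    intro x y hxy
    exact hH.1 (Nat.eq_of_mul_eq_mul_left hN hxy)
  set X : Set ℕ := {x : ℕ | 2 ≤ x ∧ ∀ g ∈ S, (Q * x + r + N * H g (c g)).Prime} with hX
  have hXinf : X.Infinite := by
    have h1 : {n : ℕ | ∀ g ∈ S, 0 < (Q : ℤ) * (n : ℤ) + ((r + N * H g (c g) : ℕ) : ℤ) ∧
        Prime ((Q : ℤ) * (n : ℤ) + ((r + N * H g (c g) : ℕ) : ℤ))} \ {n | n < 2} ⊆ X := by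
      rintro n ⟨hn, hn2⟩
      refine ⟨by have h2 : ¬ n < 2 := hn2; omega, fun g hg => ?_⟩
      have := (hn g hg).2
      rw [Nat.prime_iff_prime_int]
      push_cast at this ⊢
      rwa [add_assoc]
    exact (hinf.sdiff (Set.finite_lt_nat 2)).mono h1
  set Y : (Fin (4 * n + 1) × Fin K) × (Fin (4 * n + 1) × Fin K) → Set ℕ := fun x =>
    {y | ∃ m, m ≡ b [MOD n] ∧ Nat.nth Nat.Prime m = Q * y + r + N * H x.1.1 x.1.2 ∧
      Nat.nth Nat.Prime (m + 1) = Q * y + r + N * H x.2.1 x.2.2} with hY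
  have hpinf := Nat.infinite_setOfPred_prime
  have hcover : X ⊆ ⋃ x, Y x := by
    rintro y ⟨hy2, hy⟩
    set A : ℕ := Q * y + r with hA
    -- non-shifts give composite numbers
    have hshift : ∀ P : ℕ, P.Prime → A ≤ P → P ≤ A + M → ∃ g i, P = A + N * H g i := by
      intro P hP h1 h2
      by_contra hcon
      push Not at hcon
      obtain ⟨q, hqp, hqQ, hqr⟩ := hblock (P - A) (by omega) (by
        intro g i h
        have := hcon g i
        omega)
      have h3 : q ∣ P := by
        have e : P = Q * y + (r + (P - A)) := by omega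
        rw [e]
        exact dvd_add (hqQ.mul_right y) hqr
      have h4 : q = P := (Nat.prime_dvd_prime_iff_eq hqp hP).1 h3
      have h5 : q ≤ Q := Nat.le_of_dvd hQ0 hqQ
      have h6 := hqp.pos
      have h7 : Q * 2 ≤ Q * y := Nat.mul_le_mul_left Q hy2
      omega
    -- many primes in the window
    have hcount : Nat.count Nat.Prime A + (n + 1) ≤ Nat.count Nat.Prime (A + M + 1) := by
      have e1 : Nat.count Nat.Prime A = ((range A).filter Nat.Prime).card := by
        rw [Nat.count_eq_card_filter_range]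
      have e2 : Nat.count Nat.Prime (A + M + 1) = ((range (A + M + 1)).filter Nat.Prime).card := by
        rw [Nat.count_eq_card_filter_range]
      have hcS : n + 1 ≤ S.card := by omega
      have h1 : (S.image fun g => A + N * H g (c g)).card = S.card := by
        apply card_image_of_injOn
        intro g _ g' _ hgg
        simp only at hgg
        have h2 : N * H g (c g) = N * H g' (c g') := by omega
        have := hinjH (a₁ := (g, c g)) (a₂ := (g', c g')) h2
        exact (Prod.mk.inj this).1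
      have h2 : Disjoint ((range A).filter Nat.Prime) (S.image fun g => A + N * H g (c g)) := by
        rw [disjoint_left]
        intro P hP hP'
        rw [mem_filter, mem_range] at hP
        rw [mem_image] at hP'
        obtain ⟨g, _, rfl⟩ := hP'
        omega
      have h3 : ((range A).filter Nat.Prime) ∪ (S.image fun g => A + N * H g (c g)) ⊆
          (range (A + M + 1)).filter Nat.Prime := by
        intro P hP
        rw [mem_union, mem_filter, mem_range, mem_image] at hP
        rw [mem_filter, mem_range]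
        rcases hP with hP | ⟨g, hg, rfl⟩
        · exact ⟨by omega, hP.2⟩
        · have := hM g (c g)
          exact ⟨by omega, hy g hg⟩
      have h4 := card_le_card h3
      rw [card_union_of_disjoint h2, h1] at h4
      omega
    obtain ⟨j, hj, hjb⟩ : ∃ j < n, Nat.count Nat.Prime A + j ≡ b [MOD n] := by
      refine ⟨(b + (n - 1) * Nat.count Nat.Prime A) % n, Nat.mod_lt _ hn, ?_⟩
      set m₀ := Nat.count Nat.Prime A with hm₀
      have h1 : m₀ + (b + (n - 1) * m₀) % n ≡ m₀ + (b + (n - 1) * m₀) [MOD n] :=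
        (Nat.mod_modEq _ _).add_left _
      refine h1.trans ?_
      have h2 : m₀ + (b + (n - 1) * m₀) = b + n * m₀ := by
        obtain ⟨n', rfl⟩ : ∃ n', n = n' + 1 := ⟨n - 1, by omega⟩
        simp only [Nat.add_sub_cancel]
        ring
      rw [h2]
      simp [Nat.ModEq]
    set m := Nat.count Nat.Prime A + j with hm
    have h1 : A ≤ Nat.nth Nat.Prime m := (Nat.count_le_iff_le_nth hpinf).1 (Nat.le_add_right _ j)
    have h2 : Nat.nth Nat.Prime (m + 1) < A + M + 1 := Nat.nth_lt_of_lt_count (by omega)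
    have h3 : Nat.nth Nat.Prime m < Nat.nth Nat.Prime (m + 1) :=
      Nat.nth_strictMono hpinf (Nat.lt_succ_self m)
    obtain ⟨g, i, hgi⟩ := hshift _ (Nat.prime_nth_prime m) h1 (by omega)
    obtain ⟨g', i', hgi'⟩ := hshift _ (Nat.prime_nth_prime (m + 1)) (by omega) (by omega)
    rw [Set.mem_iUnion]
    exact ⟨((g, i), (g', i')), m, hjb, hgi, hgi'⟩
  obtain ⟨x, hx⟩ : ∃ x, (Y x).Infinite := by
    by_contra hcon
    push Not at hcon
    have : (⋃ x, Y x).Finite := Set.finite_iUnion fun x => by simpa using hcon x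
    exact hXinf (this.subset hcover)
  have hlt : N * H x.1.1 x.1.2 < N * H x.2.1 x.2.2 := by
    obtain ⟨y, m, _, h1, h2⟩ := hx.nonempty
    have h3 : Nat.nth Nat.Prime m < Nat.nth Nat.Prime (m + 1) :=
      Nat.nth_strictMono hpinf (Nat.lt_succ_self m)
    omega
  refine ⟨x.1.1, x.2.1, x.1.2, x.2.2, Nat.lt_of_mul_lt_mul_left hlt, ?_⟩
  refine Set.infinite_of_injOn_mapsTo (s := Y x)
    (f := fun y => Nat.count Nat.Prime (Q * y + r + N * H x.1.1 x.1.2)) ?_ ?_ hx
  · rintro y ⟨m, _, h1, _⟩ y' ⟨m', _, h1', _⟩ hyy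
    simp only at hyy
    rw [← h1, ← h1', Nat.count_nth_of_infinite hpinf, Nat.count_nth_of_infinite hpinf] at hyy
    rw [hyy, h1'] at h1
    exact (Nat.eq_of_mul_eq_mul_left hQ0 (by omega)).symm
  · rintro y ⟨m, hm, h1, h2⟩
    simp only
    rw [← h1, Nat.count_nth_of_infinite hpinf]
    refine ⟨hm, ?_, ?_⟩
    · rw [h1]
      have e1 : Q * y ≡ 0 [MOD N] := by
        rw [Nat.modEq_zero_iff_dvd]
        exact hNQ.mul_right y
      have e2 : N * H x.1.1 x.1.2 ≡ 0 [MOD N] := by
        rw [Nat.modEq_zero_iff_dvd]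
        exact dvd_mul_right N _
      simpa using (e1.add hrN).add e2
    · rw [h1, h2, Nat.mul_sub]
      omega

/-- from families of shifts to arbitrary large sets of integers -/
theorem delta_of_hits {N T K : ℕ} {D : Set ℕ}
    (hD : ∀ H : Fin T → Fin K → ℕ, AdmN N H → ∃ g g' i i', H g i < H g' i' ∧
      H g' i' - H g i ∈ D) : ∃ C, DeltaStar (fun k => k ∈ D) C := by
  classical
  set P : ℕ := (T * K).factorial with hP
  have hP0 : 0 < P := Nat.factorial_pos _
  refine ⟨P * (T * K) + 1, fun S hS => ?_⟩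
  -- many elements in one residue class
  obtain ⟨r, -, hr⟩ := exists_lt_card_fiber_of_mul_lt_card_of_maps_to (s := S)
    (t := (range P).image (fun j : ℕ => (j : ℤ))) (f := fun x => x % (P : ℤ)) (n := T * K)
    (by
      intro x _
      rw [mem_image]
      have hP' : (0 : ℤ) < P := by exact_mod_cast hP0
      have h1 := Int.emod_nonneg x hP'.ne'
      have h2 := Int.emod_lt_of_pos x hP'
      exact ⟨(x % (P : ℤ)).toNat, mem_range.2 (by omega), by omega⟩)
    (by
      rw [card_image_of_injective _ Nat.cast_injective, card_range]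
      omega)
  obtain ⟨R, hR, hRc⟩ := exists_subset_card_eq hr.le
  have hTm : ∀ x ∈ R, x ∈ S ∧ x % (P : ℤ) = r := fun x hx => by simpa using hR hx
  -- shift to the natural numbers
  obtain ⟨B, hB⟩ : ∃ B : ℕ, ∀ x ∈ R, 0 ≤ x + B :=
    ⟨R.sup fun x => x.natAbs, fun x hx => by
      have := le_sup (f := fun x : ℤ => x.natAbs) hx
      omega⟩
  set e : Fin T × Fin K ≃ R := finProdFinEquiv.trans (R.equivFinOfCardEq hRc).symm with he
  set H : Fin T → Fin K → ℕ := fun g i => ((e (g, i) : ℤ) + B).toNat with hH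
  have hHz : ∀ g i, (H g i : ℤ) = (e (g, i) : ℤ) + B := fun g i =>
    Int.toNat_of_nonneg (hB _ (e (g, i)).2)
  obtain ⟨g, g', i, i', hlt, hmem⟩ := hD H (by
    refine ⟨?_, ?_⟩
    · rintro ⟨g, i⟩ ⟨g', i'⟩ hx
      simp only at hx
      have h1 : (H g i : ℤ) = H g' i' := by exact_mod_cast hx
      rw [hHz, hHz] at h1
      apply e.injective
      apply Subtype.ext
      linarith
    · intro p hp _
      rcases le_or_gt p (T * K) with hpK | hpK
      · refine ⟨1 - r - B, fun g i hd => ?_⟩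
        rw [hHz] at hd
        have h1 : (p : ℤ) ∣ P := by exact_mod_cast Nat.dvd_factorial hp.pos hpK
        have h2 := (hTm _ (e (g, i)).2).2
        have h3 : (P : ℤ) ∣ (e (g, i) : ℤ) - r := by
          rw [← h2]
          exact Int.dvd_self_sub_emod
        have h4 : (p : ℤ) ∣ 1 := by
          have h5 : (1 : ℤ) = (1 - r - B + ((e (g, i) : ℤ) + B)) - ((e (g, i) : ℤ) - r) := by ring
          rw [h5]
          exact dvd_sub hd (h1.trans h3)
        have h5 : p ∣ 1 := by exact_mod_cast h4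
        exact hp.one_lt.ne' (Nat.dvd_one.1 h5)
      · exact exists_shift hp hpK _)
  refine ⟨e (g', i'), (hTm _ (e (g', i')).2).1, e (g, i), (hTm _ (e (g, i)).2).1, ?_, ?_⟩
  · intro h
    have h1 := hHz g i
    have h2 := hHz g' i'
    have h3 : (H g i : ℤ) < H g' i' := by exact_mod_cast hlt
    omega
  · have h1 := hHz g i
    have h2 := hHz g' i'
    have h3 : (((e (g', i') : ℤ) - (e (g, i) : ℤ)).natAbs) = H g' i' - H g i := by omega
    rw [h3]
    exact hmem

/-- all residue classes modulo `N`, all classes of the index modulo `n` and all dilations -/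
theorem delta_allI {N n : ℕ} (hN : 0 < N) (hn : 0 < n) (F : Finset ℕ) (hF : 0 ∉ F) :
    ∃ C, DeltaStar (fun k => ∀ r ∈ F, ∀ a, Nat.Coprime a N → ∀ b, k * r ∈ GapI N a n b) C := by
  classical
  obtain ⟨C, hC⟩ := delta_inter_finset (((range N).filter fun a => Nat.Coprime a N) ×ˢ range n)
    (D := fun x k => k ∈ GapI N x.1 n x.2) (fun x hx => by
      obtain ⟨K, _, h⟩ := consecI Pool.Agent.H362R2.CM.quarter (b := x.2) hN
        (mem_filter.1 (mem_product.1 hx).1).2 hn
      exact delta_of_hits h)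
  obtain ⟨C', hC'⟩ := dil hC F hF
  refine ⟨C', fun S hS => ?_⟩
  obtain ⟨x, hx, y, hy, hxy, h⟩ := hC' S hS
  refine ⟨x, hx, y, hy, hxy, fun r hr a ha b => ?_⟩
  have h1 := h r hr (a % N, b % n) (mem_product.2 ⟨mem_filter.2 ⟨mem_range.2 (Nat.mod_lt _ hN), by
    rw [Nat.coprime_iff_gcd_eq_one] at ha ⊢
    rw [Nat.gcd_comm] at ha
    rw [← Nat.gcd_rec]
    exact ha⟩, mem_range.2 (Nat.mod_lt _ hn)⟩)
  have h2 : GapI N (a % N) n (b % n) = GapI N a n b := by
    unfold GapI
    have e1 : ∀ n : ℕ, n ≡ a % N [MOD N] ↔ n ≡ a [MOD N] := fun n => by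
      simp [Nat.ModEq]
    have e2 : ∀ m : ℕ, m ≡ b % n [MOD n] ↔ m ≡ b [MOD n] := fun m => by
      simp [Nat.ModEq]
    simp only [e1, e2]
  rw [h2] at h1
  exact h1

end Pool.Agent.H947R3.GM
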