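import Pool.Agent.H461R2.PD.Twelfth
import Pool.Agent.H362R2.CM.Final
import Pool.Agent.H947R3.GM.Cls

/-!
# The density of the prime gaps among the multiples of an even number
-/

namespace Pool.Agent.H947R3.GM

open Finset Pool.Agent.H461R2.PD

theorem not_five {D : Set ℕ} {N K Q : ℕ}
    (hQK : ∀ p, p ≤ 5 * K → p.Prime → p ∣ Q)
    (hD : ∀ H : Fin 5 → Fin K → ℕ, AdmN N H →
      ∃ g g' i i', g ≠ g' ∧ H g i < H g' i' ∧ H g' i' - H g i ∈ D)
    {C : (Fin 5 → ℕ) → Prop}
    (hC : ∀ r, C r → ∀ p : ℕ, p.Prime → p ≤ 5 → ¬ p ∣ N →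
      ∃ n : ℤ, ∀ g, ¬ ((p : ℤ) ∣ n + r g)) :
    ¬ TemplC D Q 5 C K := by
  classical
  rintro ⟨A, r, hCr, hA, hdis, hbad, hr⟩
  set e : ∀ g, Fin K ≃ A g := fun g => ((A g).equivFinOfCardEq (hA g)).symm with he
  have key : ∀ p : ℕ, p.Prime → p ≤ 5 * K → ∀ n : ℤ, (∀ g, ¬ ((p : ℤ) ∣ n + r g)) →
      ∃ n : ℤ, ∀ g i, ¬ ((p : ℤ) ∣ n + ((e g i : ℕ) : ℤ)) := by
    intro p hp hpK n hn
    refine ⟨n, fun g i hd => hn g ?_⟩
    have h1 : ((e g i : ℕ) : ZMod p) = (r g : ZMod p) := by
      rw [ZMod.natCast_eq_natCast_iff]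
      exact (hr g _ (e g i).2).of_dvd (hQK p hpK hp)
    rw [← ZMod.intCast_zmod_eq_zero_iff_dvd] at hd ⊢
    push_cast at hd ⊢
    rw [← h1]
    exact hd
  obtain ⟨g, g', i, i', hg, hlt, hmem⟩ := hD (fun g i => (e g i : ℕ)) (by
    refine ⟨?_, ?_⟩
    · rintro ⟨g, i⟩ ⟨g', i'⟩ hx
      simp only at hx
      have hgg : g = g' := by
        by_contra hgg
        exact disjoint_left.1 (hdis g g' hgg) (e g i).2 (by rw [hx]; exact (e g' i').2)
      subst hgg
      have : e g i = e g i' := Subtype.ext hx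
      rw [(e g).injective this]
    · intro p hp hpN
      rcases le_or_gt p (5 * K) with hpz | hpz
      · refine (?_ : ∃ n : ℤ, ∀ g, ¬ ((p : ℤ) ∣ n + r g)).elim fun n hn => key p hp hpz n hn
        rcases le_or_gt p 5 with hp5 | hp5
        · exact hC r hCr p hp hp5 hpN
        · obtain ⟨n, hn⟩ := exists_shift (T := 5) (K := 1) hp (by omega) (fun g _ => r g)
          exact ⟨n, fun g => hn g 0⟩
      · exact exists_shift hp hpz _)
  exact (hbad g g' hg _ (e g i).2 _ (e g' i').2).1 hlt hmem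

/-- at the prime `5`: two classes agree -/
theorem five_free {r : Fin 5 → ℕ} (h : ∃ i j, i ≠ j ∧ r i ≡ r j [MOD 5]) :
    ∃ n : ℤ, ∀ g, ¬ (((5 : ℕ) : ℤ) ∣ n + r g) := by
  obtain ⟨i₀, j₀, hij, h5⟩ := h
  have hni : ¬ Function.Injective (fun g => -(r g : ZMod 5)) := by
    intro hinj
    apply hij
    apply hinj
    show -(r i₀ : ZMod 5) = -(r j₀ : ZMod 5)
    rw [neg_inj, ZMod.natCast_eq_natCast_iff]
    exact h5
  have hns : ¬ Function.Surjective (fun g : Fin 5 => -(r g : ZMod 5)) := by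
    intro hs
    apply hni
    exact (Fintype.bijective_iff_surjective_and_card _).2 ⟨hs, by simp [ZMod.card]⟩ |>.1
  unfold Function.Surjective at hns
  push Not at hns
  obtain ⟨n, hn⟩ := hns
  refine ⟨n.val, fun g hd => hn g ?_⟩
  have h1 := (ZMod.intCast_zmod_eq_zero_iff_dvd _ 5).2 hd
  push_cast at h1
  rw [ZMod.natCast_zmod_val] at h1
  rw [neg_eq_iff_add_eq_zero, add_comm]
  exact h1

/-- a maximal number of classes -/
theorem ladder {D : Set ℕ} {Q : ℕ} {C : ∀ t, (Fin t → ℕ) → Prop} {K s : ℕ} (hs : s ≤ 4)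
    (h5 : ¬ TemplC D Q 5 (C 5) K) (h1 : ∀ M, TemplC D Q s (C s) M) :
    ∃ t ≤ 4, (s ≤ t) ∧ (∀ M, TemplC D Q t (C t) M) ∧
      ∃ K₀, ¬ TemplC D Q (t + 1) (C (t + 1)) K₀ := by
  by_contra hcon
  push Not at hcon
  have : ∀ t, s + t ≤ 5 → ∀ M, TemplC D Q (s + t) (C (s + t)) M := by
    intro t
    induction t with
    | zero => exact fun _ M => h1 M
    | succ t ih => exact fun h => hcon (s + t) (by omega) (by omega) (ih (by omega))
  have h2 := this (5 - s) (by omega) K
  have e : s + (5 - s) = 5 := by omega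
  rw [e] at h2
  exact h5 h2

/-- the density of a set of residue classes -/
theorem classes_real {P : ℕ} (hP : 0 < P) {F : Finset ℕ} (hF : ∀ f ∈ F, f < P)
    {X : Set ℕ} (hX : ∀ x, x % P ∈ F → x ∈ X) (M : ℕ) :
    (F.card : ℝ) / P * M - 2 * P ≤ (up X M : ℝ) := by
  classical
  have h1 : F.card * (M / P) ≤ up X M + F.card := by
    rw [up_eq]
    have h2 : F.card * (M / P) ≤ (((range (M + 1)).filter fun s => s ∈ X)).card := by
      rw [← card_range (M / P), ← card_product]
      apply card_le_card_of_injOn (fun x => P * x.2 + x.1)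
      · rintro ⟨f, j⟩ h
        simp only [coe_product, Set.mem_prod, mem_coe, mem_range] at h
        obtain ⟨hf, hj⟩ := h
        have h1 := hF f hf
        have h2 : P * (j + 1) ≤ M := (Nat.mul_le_mul_left P hj).trans (Nat.mul_div_le M P)
        simp only [coe_filter, Set.mem_ofPred_eq, mem_range]
        refine ⟨by nlinarith, hX _ ?_⟩
        rw [Nat.mul_add_mod, Nat.mod_eq_of_lt h1]
        exact hf
      · rintro ⟨f, j⟩ h ⟨f', j'⟩ h' hff
        simp only [coe_product, Set.mem_prod, mem_coe, mem_range] at h h' hff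
        have h1 := hF f h.1
        have h2 := hF f' h'.1
        have h3 : f = f' := by
          have := congrArg (· % P) hff
          simpa [Nat.mod_eq_of_lt h1, Nat.mod_eq_of_lt h2] using this
        subst h3
        have h4 : P * j = P * j' := by omega
        have h5 : j = j' := Nat.eq_of_mul_eq_mul_left (by omega) h4
        rw [h5]
    rcases F.eq_empty_or_nonempty with hF0 | hF0
    · rw [hF0]; simp
    have h3 : ((range (M + 1)).filter fun s => s ∈ X) ⊆
        insert 0 ((Icc 1 M).filter fun s => s ∈ X) := by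
      intro s hs
      rw [mem_filter, mem_range] at hs
      rw [mem_insert, mem_filter, mem_Icc]
      rcases Nat.eq_zero_or_pos s with h | h
      · left; exact h
      · right; exact ⟨⟨h, by omega⟩, hs.2⟩
    have h4 := (card_le_card h3).trans (card_insert_le _ _)
    have h5 := hF0.card_pos
    omega
  have hFP : F.card ≤ P := by
    have : F ⊆ range P := fun f hf => mem_range.2 (hF f hf)
    simpa using card_le_card this
  have h2 : (M : ℝ) ≤ P * (M / P : ℕ) + P := by
    have : M ≤ P * (M / P) + P := by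
      have := Nat.div_add_mod M P
      have := Nat.mod_lt M hP
      omega
    exact_mod_cast this
  have h3 : ((F.card : ℝ)) * (M / P : ℕ) ≤ up X M + F.card := by exact_mod_cast h1
  have hP' : (0 : ℝ) < P := by exact_mod_cast hP
  have h4 : (F.card : ℝ) ≤ P := by exact_mod_cast hFP
  have h5 : (F.card : ℝ) / P * M ≤ (F.card : ℝ) / P * (P * (M / P : ℕ) + P) :=
    mul_le_mul_of_nonneg_left h2 (by positivity)
  have h6 : (F.card : ℝ) / P * (P * (M / P : ℕ) + P) = F.card * (M / P : ℕ) + F.card := by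
    field_simp
  rw [h6] at h5
  linarith

/-- the conclusion of the ladder -/
theorem density_of_ladder {D X : Set ℕ} {t : ℕ} (ht : t ≤ 4) {c ε : ℝ} (hε : 0 < ε)
    {P : ℕ} (hX : ∀ M : ℕ, c * M - P ≤ (up X M : ℝ))
    (h : ∃ N₀ : ℕ, ∀ M ≥ N₀, (up X M : ℝ) ≤ t * up (D ∩ Set.univ) M + 2 * ε * M) :
    ∃ N₀ : ℕ, ∀ M ≥ N₀, (c / 4 - ε) * (M : ℝ) ≤ (up D M : ℝ) := by
  obtain ⟨N₀, hN₀⟩ := h
  refine ⟨max N₀ ⌈P / (2 * ε)⌉₊, fun M hM => ?_⟩
  have h1 := hN₀ M ((le_max_left _ _).trans hM)
  have h2 := hX M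
  rw [Set.inter_univ] at h1
  set d : ℝ := (up D M : ℝ) with hd
  have hd0 : 0 ≤ d := by positivity
  have ht4 : (t : ℝ) ≤ 4 := by exact_mod_cast ht
  have h8 : (t : ℝ) * d ≤ 4 * d := mul_le_mul_of_nonneg_right ht4 hd0
  have h9 : (P : ℝ) ≤ 2 * ε * M := by
    have h1 : P / (2 * ε) ≤ M :=
      (Nat.le_ceil _).trans (by exact_mod_cast (le_max_right _ _).trans hM)
    rw [div_le_iff₀ (by positivity)] at h1
    linarith
  linarith

/-- `30 ∣ N`: a quarter of the multiples -/
theorem quarter_mult {N a : ℕ} (hN : 0 < N) (ha : a.Coprime N) (h30 : 30 ∣ N) {ε : ℝ} (hε : 0 < ε) :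
    ∃ N₀ : ℕ, ∀ M ≥ N₀, (1 / 4 - ε) * (M : ℝ) ≤ (up (GapA N a) M : ℝ) := by
  classical
  obtain ⟨K, hK, hD⟩ := consecA Pool.Agent.H362R2.CM.quarter hN ha
  set Q : ℕ := (5 * K).factorial with hQdef
  have hQ : 0 < Q := Nat.factorial_pos _
  have hQp : ∀ p, p ≤ 5 * K → p.Prime → p ∣ Q := fun p hp hpp => Nat.dvd_factorial hpp.pos hp
  have h5 : ¬ TemplC (GapA N a) Q 5 (fun _ => True) K := by
    refine not_five hQp hD fun r _ p hp hp5 hpN => absurd ?_ hpN
    refine dvd_trans ?_ h30
    interval_cases p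
    · exact absurd hp (by norm_num)
    · exact absurd hp (by norm_num)
    · norm_num
    · norm_num
    · exact absurd hp (by norm_num)
    · norm_num
  obtain ⟨t, ht4, -, ht, K₀, hK₀⟩ := ladder (C := fun _ _ => True) (s := 1) (by norm_num) h5
    (templ_one _ hQ 0 trivial)
  have h := step (X := Set.univ) (Y := Set.univ) hQ (fun _ _ _ _ => trivial) ht hK₀
    (fun _ _ _ _ _ _ _ => trivial) (show 0 < 2 * ε by positivity)
  refine density_of_ladder (c := 1) (P := 2) ht4 hε (fun M => ?_) h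
  have := classes_real (P := 1) one_pos (F := {0}) (by simp) (X := Set.univ) (by simp) M
  simpa using this

/-- two classes agree modulo `5` -/
def S5 (t : ℕ) (r : Fin t → ℕ) : Prop := ∃ i j, i ≠ j ∧ r i ≡ r j [MOD 5]

/-- no class is divisible by `3` and two classes agree modulo `5` -/
def S35 (t : ℕ) (r : Fin t → ℕ) : Prop :=
  (∀ i, ¬ 3 ∣ r i) ∧ ∃ i j, i ≠ j ∧ r i ≡ r j [MOD 5]

/-- `6 ∣ N`: a fifth of the multiples -/
theorem fifth_mult {N a : ℕ} (hN : 0 < N) (ha : a.Coprime N) (h6 : 6 ∣ N) {ε : ℝ} (hε : 0 < ε) :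
    ∃ N₀ : ℕ, ∀ M ≥ N₀, (1 / 5 - ε) * (M : ℝ) ≤ (up (GapA N a) M : ℝ) := by
  classical
  obtain ⟨K, hK, hD⟩ := consecA Pool.Agent.H362R2.CM.quarter hN ha
  set D : Set ℕ := GapA N a with hDdef
  set Q : ℕ := (5 * K).factorial with hQdef
  have hQ : 0 < Q := Nat.factorial_pos _
  have hQp : ∀ p, p ≤ 5 * K → p.Prime → p ∣ Q := fun p hp hpp => Nat.dvd_factorial hpp.pos hp
  have hQ5 : 5 ∣ Q := (show 5 ∣ (5).factorial by decide).trans
    (Nat.factorial_dvd_factorial (by omega))
  have h5 : ¬ TemplC D Q 5 (S5 5) K := by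
    refine not_five hQp hD fun r hr p hp hp5 hpN => ?_
    interval_cases p
    · exact absurd hp (by norm_num)
    · exact absurd hp (by norm_num)
    · exact absurd ((show 2 ∣ 6 by norm_num).trans h6) hpN
    · exact absurd ((show 3 ∣ 6 by norm_num).trans h6) hpN
    · exact absurd hp (by norm_num)
    · exact five_free hr
  by_cases h2 : ∀ M, TemplC D Q 2 (S5 2) M
  · obtain ⟨t, ht4, -, ht, K₀, hK₀⟩ := ladder (C := S5) (s := 2) (by norm_num) h5 h2
    have h := step (X := Set.univ) (Y := Set.univ) hQ (by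
      rintro r ⟨i, j, hij, hrij⟩ x -
      exact ⟨i.succ, j.succ, fun h => hij (Fin.succ_injective _ h), by simpa using hrij⟩) ht hK₀
      (fun _ _ _ _ _ _ _ => trivial) (show 0 < 2 * ε by positivity)
    obtain ⟨N₀, hN₀⟩ := density_of_ladder (c := 1) (P := 2) ht4 hε (fun M => by
      have := classes_real (P := 1) one_pos (F := {0}) (by simp) (X := Set.univ) (by simp) M
      simpa using this) h
    refine ⟨N₀, fun M hM => (mul_le_mul_of_nonneg_right ?_ (Nat.cast_nonneg _)).trans (hN₀ M hM)⟩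
    linarith
  · push Not at h2
    obtain ⟨K₀, hK₀⟩ := h2
    obtain ⟨N₀, hN₀⟩ := step (D := D) (X := {x | x % 5 = 0}) (C := fun r : Fin 1 → ℕ => r = fun _ => 0)
      (Y := {d | d % 5 = 0}) hQ (by
        rintro r rfl x hx
        refine ⟨0, 1, by decide, ?_⟩
        show (x % Q) ≡ 0 [MOD 5]
        have h1 : (x % Q) % 5 = x % 5 := Nat.mod_mod_of_dvd _ hQ5
        have h2 : x % 5 = 0 := hx
        unfold Nat.ModEq
        omega) (templ_one D hQ 0 rfl) hK₀ (by
        rintro r rfl i a d ha hd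
        have h1 : a % 5 = 0 % 5 := ha.of_dvd hQ5
        have h2 : (a + d) % 5 = 0 := hd
        show d % 5 = 0
        omega) (show 0 < ε / 2 by positivity)
    refine ⟨max N₀ ⌈20 / ε⌉₊, fun M hM => ?_⟩
    have h1 := hN₀ M ((le_max_left _ _).trans hM)
    have h2 := classes_real (P := 5) (by norm_num) (F := {0}) (by simp) (X := {x | x % 5 = 0})
      (by simp) M
    have h3 : up (D ∩ {d | d % 5 = 0}) M ≤ up D M := by
      rw [up_eq, up_eq]
      exact card_le_card (monotone_filter_right _ fun x _ hx => hx.1)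
    have h4 : (up (D ∩ {d | d % 5 = 0}) M : ℝ) ≤ up D M := by exact_mod_cast h3
    have h5 : (20 : ℝ) ≤ ε * M := by
      have h1 : 20 / ε ≤ M :=
        (Nat.le_ceil _).trans (by exact_mod_cast (le_max_right _ _).trans hM)
      rw [div_le_iff₀ hε] at h1
      linarith
    rw [card_singleton] at h2
    push_cast at h1 h2
    linarith

/-- `2 ∣ N`: a sixth of the multiples -/
theorem sixth_mult {N a : ℕ} (hN : 0 < N) (ha : a.Coprime N) (h2N : 2 ∣ N) {ε : ℝ} (hε : 0 < ε) :
    ∃ N₀ : ℕ, ∀ M ≥ N₀, (1 / 6 - ε) * (M : ℝ) ≤ (up (GapA N a) M : ℝ) := by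
  classical
  obtain ⟨K, hK, hD⟩ := consecA Pool.Agent.H362R2.CM.quarter hN ha
  set D : Set ℕ := GapA N a with hDdef
  set Q : ℕ := (5 * K).factorial with hQdef
  have hQ : 0 < Q := Nat.factorial_pos _
  have hQp : ∀ p, p ≤ 5 * K → p.Prime → p ∣ Q := fun p hp hpp => Nat.dvd_factorial hpp.pos hp
  have hQ15 : 15 ∣ Q := (show 15 ∣ (5).factorial by decide).trans
    (Nat.factorial_dvd_factorial (by omega))
  have h5 : ¬ TemplC D Q 5 (S35 5) K := by
    refine not_five hQp hD fun r hr p hp hp5 hpN => ?_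
    interval_cases p
    · exact absurd hp (by norm_num)
    · exact absurd hp (by norm_num)
    · exact absurd h2N hpN
    · refine ⟨0, fun g hd => hr.1 g ?_⟩
      rw [zero_add] at hd
      exact_mod_cast hd
    · exact absurd hp (by norm_num)
    · exact five_free hr.2
  by_cases h2 : ∀ M, TemplC D Q 2 (S35 2) M
  · obtain ⟨t, ht4, -, ht, K₀, hK₀⟩ := ladder (C := S35) (s := 2) (by norm_num) h5 h2
    have h := step (X := {x | ¬ 3 ∣ x}) (Y := Set.univ) hQ (by
      rintro r ⟨h3, i, j, hij, hrij⟩ x hx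
      refine ⟨fun i => ?_, i.succ, j.succ, fun h => hij (Fin.succ_injective _ h),
        by simpa using hrij⟩
      refine Fin.cases ?_ (fun i => ?_) i
      · simp only [Fin.cons_zero]
        have h1 : (x % Q) % 15 = x % 15 := Nat.mod_mod_of_dvd _ hQ15
        have h2 : ¬ 3 ∣ x := hx
        omega
      · simpa using h3 i) ht hK₀
      (fun _ _ _ _ _ _ _ => trivial) (show 0 < 2 * ε by positivity)
    obtain ⟨N₀, hN₀⟩ := density_of_ladder (c := 2 / 3) (P := 6) ht4 hε (fun M => by
      have := classes_real (P := 3) (by norm_num) (F := {1, 2}) (by simp)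
        (X := {x | ¬ 3 ∣ x}) (by
          intro x hx
          simp only [mem_insert, mem_singleton] at hx
          show ¬ 3 ∣ x
          omega) M
      have hF : ({1, 2} : Finset ℕ).card = 2 := rfl
      rw [hF] at this
      push_cast at this ⊢
      linarith) h
    refine ⟨N₀, fun M hM => (mul_le_mul_of_nonneg_right ?_ (Nat.cast_nonneg _)).trans (hN₀ M hM)⟩
    linarith
  · push Not at h2
    obtain ⟨K₀, hK₀⟩ := h2
    set X : Set ℕ := {x | x % 15 = 1 ∨ x % 15 = 11} with hX
    have hstep : ∀ c, (c = 1 ∨ c = 11) → ∃ N₀ : ℕ, ∀ M ≥ N₀, (up X M : ℝ) ≤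
        (up (D ∩ {d | (c + d) % 15 = 1 ∨ (c + d) % 15 = 11}) M : ℝ) + ε / 2 * M := by
      intro c hc
      obtain ⟨N₀, hN₀⟩ := step (D := D) (X := X) (C := fun r : Fin 1 → ℕ => r = fun _ => c)
        (Y := {d | (c + d) % 15 = 1 ∨ (c + d) % 15 = 11}) hQ (by
          rintro r rfl x hx
          have h1 : (x % Q) % 15 = x % 15 := Nat.mod_mod_of_dvd _ hQ15
          have h2 : x % 15 = 1 ∨ x % 15 = 11 := hx
          refine ⟨fun i => ?_, 0, 1, by decide, ?_⟩
          · refine Fin.cases ?_ (fun i => ?_) i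
            · simp only [Fin.cons_zero]
              omega
            · simp only [Fin.cons_succ]
              rcases hc with rfl | rfl <;> decide
          · show (x % Q) ≡ c [MOD 5]
            unfold Nat.ModEq
            rcases hc with rfl | rfl <;> omega) (templ_one D hQ c rfl) hK₀ (by
          rintro r rfl i a d ha hd
          have h1 : a % 15 = c % 15 := ha.of_dvd hQ15
          have h2 : (a + d) % 15 = 1 ∨ (a + d) % 15 = 11 := hd
          show (c + d) % 15 = 1 ∨ (c + d) % 15 = 11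
          omega) (show 0 < ε / 2 by positivity)
      refine ⟨N₀, fun M hM => ?_⟩
      have := hN₀ M hM
      rw [Nat.cast_one, one_mul] at this
      exact this
    obtain ⟨N₁, hN₁⟩ := hstep 1 (Or.inl rfl)
    obtain ⟨N₂, hN₂⟩ := hstep 11 (Or.inr rfl)
    refine ⟨max (max N₁ N₂) 2000, fun M hM => ?_⟩
    have h3 := hN₁ M ((le_max_left _ _).trans ((le_max_left _ _).trans hM))
    have h4 := hN₂ M ((le_max_right _ _).trans ((le_max_left _ _).trans hM))
    have hM2000 : 2000 ≤ M := (le_max_right _ _).trans hM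
    have h6 := classes_real (P := 15) (by norm_num) (F := {1, 11}) (by simp) (X := X) (by
      intro x hx
      rw [mem_insert, mem_singleton] at hx
      exact hx) M
    have hF : ({1, 11} : Finset ℕ).card = 2 := rfl
    rw [hF] at h6
    have h7 : up (D ∩ {d | (1 + d) % 15 = 1 ∨ (1 + d) % 15 = 11}) M +
        up (D ∩ {d | (11 + d) % 15 = 1 ∨ (11 + d) % 15 = 11}) M ≤ up D M + (M / 15) := by
      have h8 : up (D ∩ {d | (11 + d) % 15 = 1 ∨ (11 + d) % 15 = 11}) M ≤
          up (D ∩ {d | d % 15 = 5}) M + M / 15 := by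
        rw [up_eq, up_eq]
        have e1 : ((Icc 1 M).filter fun d =>
            d ∈ D ∩ {d | (11 + d) % 15 = 1 ∨ (11 + d) % 15 = 11}) ⊆
            ((Icc 1 M).filter fun d => d ∈ D ∩ {d | d % 15 = 5}) ∪
              ((Icc 1 M).filter fun d => 15 ∣ d) := by
          intro d hd
          simp only [mem_filter, mem_Icc, Set.mem_ofPred_eq, mem_union, Set.mem_inter_iff] at hd ⊢
          rcases hd.2.2 with h | h
          · left; exact ⟨hd.1, hd.2.1, by omega⟩
          · right; exact ⟨hd.1, by omega⟩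
        refine (card_le_card e1).trans ((card_union_le _ _).trans (Nat.add_le_add_left ?_ _))
        have e2 : ((Icc 1 M).filter fun d => 15 ∣ d).card ≤ (Icc 1 (M / 15)).card := by
          apply card_le_card_of_injOn (fun d => d / 15)
          · intro d hd
            simp only [coe_filter, mem_Icc, Set.mem_ofPred_eq, coe_Icc, Set.mem_Icc] at hd ⊢
            obtain ⟨⟨h1, h2⟩, h3⟩ := hd
            omega
          · intro d hd d' hd' hdd
            simp only [coe_filter, mem_Icc, Set.mem_ofPred_eq] at hd hd' hdd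
            omega
        simpa using e2
      have h9 : up (D ∩ {d | (1 + d) % 15 = 1 ∨ (1 + d) % 15 = 11}) M +
          up (D ∩ {d | d % 15 = 5}) M ≤ up D M := by
        rw [up_eq, up_eq, up_eq, ← card_union_of_disjoint]
        · apply card_le_card
          intro d hd
          simp only [mem_filter, mem_Icc, Set.mem_ofPred_eq, mem_union, Set.mem_inter_iff] at hd ⊢
          rcases hd with h | h
          · exact ⟨h.1, h.2.1⟩
          · exact ⟨h.1, h.2.1⟩
        · rw [disjoint_left]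
          intro d hd hd'
          simp only [mem_filter, mem_Icc, Set.mem_ofPred_eq, Set.mem_inter_iff] at hd hd'
          omega
      omega
    set a₁ := up (D ∩ {d | (1 + d) % 15 = 1 ∨ (1 + d) % 15 = 11}) M
    set a₂ := up (D ∩ {d | (11 + d) % 15 = 1 ∨ (11 + d) % 15 = 11}) M
    have h10 : ((a₁ : ℝ) + a₂) ≤ (up D M : ℝ) + (M / 15 : ℕ) := by
      exact_mod_cast h7
    have h11 : ((M / 15 : ℕ) : ℝ) ≤ M / 15 := Nat.cast_div_le
    have h12 : (2000 : ℝ) ≤ M := by exact_mod_cast hM2000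
    push_cast at h6
    linarith

/-- a set of differences without large templates is syndetic -/
theorem syndetic_of {D : Set ℕ} {Q K : ℕ} (hQ : 0 < Q) {C : (Fin 5 → ℕ) → Prop}
    (hC : C fun _ => 1) (h5 : ¬ TemplC D Q 5 C K) :
    ∃ L : ℕ, ∀ x : ℕ, ∃ d ∈ D, x < d ∧ d ≤ x + L := by
  classical
  by_contra hcon
  push Not at hcon
  have key : ∀ t : ℕ, ∃ y : Fin t → ℕ, ∀ i j, i ≠ j → ∀ u < K, ∀ v < K,
      y i + u ≠ y j + v ∧ (y i + u < y j + v → Q * (y j + v) - Q * (y i + u) ∉ D) := by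
    intro t
    induction t with
    | zero => exact ⟨fun i => i.elim0, fun i => i.elim0⟩
    | succ t ih =>
      obtain ⟨y, hy⟩ := ih
      obtain ⟨B, hB⟩ : ∃ B, ∀ i, y i + K ≤ B :=
        ⟨univ.sup fun i => y i + K, fun i => le_sup (f := fun i => y i + K) (mem_univ i)⟩
      obtain ⟨x, hx⟩ := hcon (Q * (1 + B + K))
      have hnew : ∀ i, ∀ u < K, ∀ v < K, y i + u < x / Q + 1 + B + v ∧
          Q * (x / Q + 1 + B + v) - Q * (y i + u) ∉ D := by
        intro i u hu v hv
        have h1 := hB i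
        have h2 : Q * (x / Q) ≤ x := Nat.mul_div_le x Q
        have h3 : x < Q * (x / Q) + Q := by
          have := Nat.div_add_mod x Q
          have := Nat.mod_lt x hQ
          omega
        generalize x / Q = w at h2 h3 ⊢
        refine ⟨by omega, fun hd => ?_⟩
        have h4 : Q * (y i + u) ≤ Q * B := Nat.mul_le_mul_left Q (by omega)
        have h5 : Q * (w + 1 + B + v) = Q * w + Q + Q * B + Q * v := by ring
        have h6 : Q * v ≤ Q * K := Nat.mul_le_mul_left Q hv.le
        have h7 : Q * (1 + B + K) = Q + Q * B + Q * K := by ring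
        have h8 := hx _ hd (by omega)
        omega
      refine ⟨Fin.cons (x / Q + 1 + B) y, fun i j => ?_⟩
      refine Fin.cases ?_ (fun i => ?_) i <;> refine Fin.cases ?_ (fun j => ?_) j
      · intro h; exact absurd rfl h
      · intro _ u hu v hv
        simp only [Fin.cons_zero, Fin.cons_succ]
        obtain ⟨h1, h2⟩ := hnew j v hv u hu
        exact ⟨by omega, fun h => absurd h (by omega)⟩
      · intro _ u hu v hv
        simp only [Fin.cons_zero, Fin.cons_succ]
        obtain ⟨h1, h2⟩ := hnew i u hu v hv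
        exact ⟨by omega, fun _ => h2⟩
      · intro h u hu v hv
        simp only [Fin.cons_succ]
        exact hy i j (fun h' => h (by rw [h'])) u hu v hv
  obtain ⟨y, hy⟩ := key 5
  apply h5
  refine ⟨fun i => (range K).image fun u => Q * (y i + u) + 1, fun _ => 1, hC, fun i => ?_, ?_, ?_, ?_⟩
  · rw [card_image_of_injective, card_range]
    intro a b hab
    have : Q * (y i + a) = Q * (y i + b) := by simpa using hab
    have := Nat.eq_of_mul_eq_mul_left hQ this
    omega
  · intro i j hij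
    rw [disjoint_left]
    intro z hz hz'
    rw [mem_image] at hz hz'
    obtain ⟨u, hu, rfl⟩ := hz
    obtain ⟨v, hv, huv⟩ := hz'
    have h1 : Q * (y j + v) = Q * (y i + u) := by omega
    have h2 := Nat.eq_of_mul_eq_mul_left hQ h1
    exact (hy i j hij u (mem_range.1 hu) v (mem_range.1 hv)).1 h2.symm
  · intro i j hij a ha b hb
    rw [mem_image] at ha hb
    obtain ⟨u, hu, rfl⟩ := ha
    obtain ⟨v, hv, rfl⟩ := hb
    have h1 := hy i j hij u (mem_range.1 hu) v (mem_range.1 hv)
    have h2 := hy j i hij.symm v (mem_range.1 hv) u (mem_range.1 hu)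
    refine ⟨fun h => ?_, fun h => ?_⟩
    · have h3 : y i + u < y j + v := by
        by_contra hc
        have := Nat.mul_le_mul_left Q (Nat.le_of_not_lt hc)
        omega
      rw [Nat.add_sub_add_right]
      exact h1.2 h3
    · have h3 : y j + v < y i + u := by
        by_contra hc
        have := Nat.mul_le_mul_left Q (Nat.le_of_not_lt hc)
        omega
      rw [Nat.add_sub_add_right]
      exact h2.2 h3
  · intro i a ha
    rw [mem_image] at ha
    obtain ⟨u, hu, rfl⟩ := ha
    show (Q * (y i + u) + 1) % Q = 1 % Q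
    rw [Nat.mul_add_mod]

/-- the gaps are syndetic -/
theorem syndetic_gap {N a : ℕ} (hN : 0 < N) (ha : a.Coprime N) (h2N : 2 ∣ N) :
    ∃ L : ℕ, ∀ x : ℕ, ∃ k ∈ GapA N a, x < k ∧ k ≤ x + L := by
  classical
  obtain ⟨K, hK, hD⟩ := consecA Pool.Agent.H362R2.CM.quarter hN ha
  set Q : ℕ := (5 * K).factorial with hQdef
  have hQ : 0 < Q := Nat.factorial_pos _
  have hQp : ∀ p, p ≤ 5 * K → p.Prime → p ∣ Q := fun p hp hpp => Nat.dvd_factorial hpp.pos hp
  refine syndetic_of hQ (C := S35 5) ⟨fun _ => by norm_num, 0, 1, by decide, rfl⟩ (K := K) ?_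
  refine not_five hQp hD fun r hr p hp hp5 hpN => ?_
  interval_cases p
  · exact absurd hp (by norm_num)
  · exact absurd hp (by norm_num)
  · exact absurd h2N hpN
  · refine ⟨0, fun g hd => hr.1 g ?_⟩
    rw [zero_add] at hd
    exact_mod_cast hd
  · exact absurd hp (by norm_num)
  · exact five_free hr.2

end Pool.Agent.H947R3.GM
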